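import Mathlib
import Pool.Agent.Lib.helper9.OneRadius

set_option autoImplicit false
open MeasureTheory

namespace Pool.Agent.Results.MP_a19bc9_an.AnalyticDisc

open Pool.Agent.Lib.helper9.OneRadius

theorem result : ∃ u : ℂ → ℂ, AnalyticOnNhd ℝ u (Metric.ball 0 1) ∧
    (∃ M : ℝ, ∀ z ∈ Metric.ball (0 : ℂ) 1, ‖u z‖ ≤ M) ∧
    (∀ z ∈ Metric.ball (0 : ℂ) 1, ∃ r : ℝ, 0 < r ∧ r < 1 ∧
      Real.circleAverage (fun w => u ((z - w) / (1 - (starRingEnd ℂ) z * w))) 0 r = u z) ∧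
    ¬ (∀ z ∈ Metric.ball (0 : ℂ) 1, ∀ r : ℝ, 0 < r → r < 1 →
      Real.circleAverage (fun w => u ((z - w) / (1 - (starRingEnd ℂ) z * w))) 0 r = u z) := by
  set μ : Measure ℝ := volume.restrict (Set.Ioc 0 (2 * Real.pi)) with hμ
  have hpi : 0 < 2 * Real.pi := by positivity
  have hreal : μ.real Set.univ = 2 * Real.pi := by
    simp [hμ, Measure.real, Real.pi_pos.le]
  set ζ : ℝ → ℂ := fun θ => Complex.exp (θ * Complex.I) with hζ
  have hζm : Measurable ζ := by rw [hζ]; fun_prop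
  have hζ1 : ∀ᵐ x ∂μ, ‖ζ x‖ = 1 :=
    Filter.Eventually.of_forall fun x => Complex.norm_exp_ofReal_mul_I x
  set u : ℂ → ℂ := fun x => ((U (‖x‖ ^ 2) : ℝ) : ℂ) with hu
  have havg : ∀ (z : ℂ) (r : ℝ),
      Real.circleAverage (fun w => u ((z - w) / (1 - (starRingEnd ℂ) z * w))) 0 r =
        ((((2 * Real.pi)⁻¹ * I μ ζ z r : ℝ)) : ℂ) := by
    intro z r
    rw [Real.circleAverage_def, intervalIntegral.integral_of_le hpi.le, Complex.real_smul,
      Complex.ofReal_mul]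
    congr 1
    unfold I
    rw [← integral_complex_ofReal]
    congr 1
    funext x
    simp only [hu, hζ, mob, circleMap, zero_add]
    rw [mul_comm ((starRingEnd ℂ) z)]
  have hlt : ∀ z : ℂ, ‖z‖ < 1 → |U (‖z‖ ^ 2)| < 1 := fun z hz =>
    abs_U_lt (by positivity) (by nlinarith [norm_nonneg z])
  refine ⟨u, fun z hz => ?_, ⟨1, fun z hz => ?_⟩, fun z hz => ?_, fun key => ?_⟩
  · exact (Complex.ofRealCLM.analyticAt _).comp (analyticAt_u (mem_ball_zero_iff.1 hz))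
  · simp only [hu, Complex.norm_real, Real.norm_eq_abs]
    exact (hlt z (mem_ball_zero_iff.1 hz)).le
  · obtain ⟨r, h0, h1, hr⟩ := exists_radius hζm hζ1 (mem_ball_zero_iff.1 hz)
      (hlt z (mem_ball_zero_iff.1 hz))
    refine ⟨r, h0, h1, ?_⟩
    rw [havg, hr, hreal, ← mul_assoc, inv_mul_cancel₀ hpi.ne', one_mul]
  · have h0B : ‖(0 : ℂ)‖ < 1 := by simp
    have hc := abs_lt.1 (hlt 0 h0B)
    obtain ⟨r, h0, h1, hr⟩ := upper hζm hζ1 h0B (c := (U (‖(0 : ℂ)‖ ^ 2) + 1) / 2)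
      (by linarith [hc.2])
    have h2 := key 0 (mem_ball_zero_iff.2 h0B) r h0 h1
    rw [havg] at h2
    have h3 := Complex.ofReal_injective h2
    rw [inv_mul_eq_iff_eq_mul₀ hpi.ne'] at h3
    rw [h3, hreal] at hr
    have := le_of_mul_le_mul_left hr hpi
    linarith [hc.2]

end Pool.Agent.Results.MP_a19bc9_an.AnalyticDisc
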